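import Pool.Agent.W957.CH.Stm2

/-! Project CH (MP_d275fd_co, S11629), part INI: the initial pair. -/

namespace Pool.Agent.W73.CH

open Finset Pool.Agent.W957.CH

theorem mono_x {τ N : ℕ} {x : ℕ → ℕ} (h : ∀ r, r < N → x r + τ < x (r + 1)) :
    ∀ r s, r < s → s ≤ N → x r + τ < x s := by
  intro r s
  induction s with
  | zero => intro h1; omega
  | succ s ih =>
    intro h1 h2
    rcases Nat.lt_succ_iff_lt_or_eq.1 h1 with h3 | h3
    · have h4 := ih h3 (by omega)
      have h5 := h s (by omega)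
      omega
    · subst h3
      exact h r (by omega)

theorem mono_y {τ N : ℕ} {y : ℕ → ℕ} (h : ∀ r, r < N → y (r + 1) + τ < y r) :
    ∀ r s, r < s → s ≤ N → y s + τ < y r := by
  intro r s
  induction s with
  | zero => intro h1; omega
  | succ s ih =>
    intro h1 h2
    rcases Nat.lt_succ_iff_lt_or_eq.1 h1 with h3 | h3
    · have h4 := ih h3 (by omega)
      have h5 := h s (by omega)
      omega
    · subst h3
      exact h r (by omega)

theorem mem_win {x y : ℕ → ℕ} {r s i : ℕ} :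
    i ∈ win x y r s ↔ (x r < i ∧ i < x s) ∨ (y s < i ∧ i < y r) := by
  unfold win
  rw [mem_union, mem_Ioo, mem_Ioo]

theorem t_INI (h1 : S_MARK) (h2 : S_SEG) (h3 : S_WNB) (h4 : S_WLOC) (h5 : S_PCS) : S_INI := by
  classical
  intro V _ X n c τ σ N p x y K hS hL hp hN
  have hx := mono_x hL.xi
  have hy := mono_y hL.yd
  have hx' : ∀ r s, r ≤ s → s ≤ N → x r ≤ x s := by
    intro r s hrs hs
    rcases Nat.lt_or_eq_of_le hrs with h | h
    · have := hx r s h hs
      omega
    · rw [h]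
  have hy' : ∀ r s, r ≤ s → s ≤ N → y s ≤ y r := by
    intro r s hrs hs
    rcases Nat.lt_or_eq_of_le hrs with h | h
    · have := hy r s h hs
      omega
    · rw [h]
  have hxy := hL.xy
  have hyn := hL.yn
  obtain ⟨M, hM⟩ := h1 V X n c hS.ok hS.good
  obtain ⟨μ, hμ⟩ : ∃ μ, μ = mu X.m := ⟨_, rfl⟩
  rw [← hμ] at hN
  have hMc : M.card + 1 ≤ μ := by rw [hμ]; exact hM.card
  obtain ⟨Sg, hSg1, hSg2, hSg3⟩ := h2 n M hM.lt
  obtain ⟨R, hRd⟩ : ∃ R : ℕ → ℕ, R = fun t => p + t * (σ + 5) := ⟨_, rfl⟩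
  have hRt : ∀ t, R t = p + t * (σ + 5) := fun t => by rw [hRd]
  have hR : ∀ t, t ≤ 3 * μ → R t + (σ + 3) + p + 2 ≤ N := by
    intro t ht
    have e1 : t * (σ + 5) ≤ 3 * μ * (σ + 5) := Nat.mul_le_mul_right _ ht
    have e2 : (3 * μ + 1) * (σ + 5) = 3 * μ * (σ + 5) + (σ + 5) := by ring
    rw [hRt]
    omega
  have hRR : ∀ t t', t < t' → R t + (σ + 3) + 2 ≤ R t' := by
    intro t t' htt
    have e1 : (t + 1) * (σ + 5) ≤ t' * (σ + 5) := Nat.mul_le_mul_right _ htt
    have e2 : (t + 1) * (σ + 5) = t * (σ + 5) + (σ + 5) := by ring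
    rw [hRt, hRt]
    omega
  have hRp : ∀ t, p ≤ R t := by
    intro t
    rw [hRt]
    omega
  -- positions of a window lie in the ladder
  have hwl : ∀ t, t ≤ 3 * μ → ∀ i, i ∈ win x y (R t) (R t + (σ + 3)) →
      (x 0 < i ∧ i < x N) ∨ (y N < i ∧ i < y 0) := by
    intro t ht i hi
    have e0 := hR t ht
    rcases mem_win.1 hi with ⟨a, b⟩ | ⟨a, b⟩
    · left
      have e1 := hx' 0 (R t) (Nat.zero_le _) (by omega)
      have e2 := hx' (R t + (σ + 3)) N (by omega) le_rfl
      omega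
    · right
      have e1 := hy' 0 (R t) (Nat.zero_le _) (by omega)
      have e2 := hy' (R t + (σ + 3)) N (by omega) le_rfl
      omega
  have hcl : ∀ t, t ≤ 3 * μ → ∀ i ∈ win x y (R t) (R t + (σ + 3)), Cl X n c i := by
    intro t ht i hi
    rcases hwl t ht i hi with ⟨a, b⟩ | ⟨a, b⟩
    · exact hL.cx i a.le b.le
    · exact hL.cy i a.le b.le
  -- different windows
  have hdisj : ∀ t t', t < t' → t' ≤ 3 * μ → ∀ i, i ∈ win x y (R t) (R t + (σ + 3)) →
      i ∈ win x y (R t') (R t' + (σ + 3)) → False := by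
    intro t t' htt ht' i hi hi'
    have e0 := hR t' ht'
    have e1 := hRR t t' htt
    have e2 := hx' (R t + (σ + 3)) (R t') (by omega) (by omega)
    have e3 := hy' (R t + (σ + 3)) (R t') (by omega) (by omega)
    have e4 := hx' (R t' + (σ + 3)) N (by omega) le_rfl
    have e5 := hy' (R t' + (σ + 3)) N (by omega) le_rfl
    have e6 := hx' (R t + (σ + 3)) N (by omega) le_rfl
    have e7 := hy' (R t + (σ + 3)) N (by omega) le_rfl
    rcases mem_win.1 hi with ⟨a, b⟩ | ⟨a, b⟩ <;> rcases mem_win.1 hi' with ⟨a', b'⟩ | ⟨a', b'⟩ <;>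
      omega
  have hsep : ∀ t t', t < t' → t' ≤ 3 * μ → ∀ (Q : Finset V) (i i' : ℕ), Comp X n c Q →
      i ∈ win x y (R t) (R t + (σ + 3)) → At X c Q i →
      i' ∈ win x y (R t') (R t' + (σ + 3)) → At X c Q i' → False := by
    intro t t' htt ht' Q i i' hQ hi hQi hi' hQi'
    have e0 := hR t' ht'
    have e1 := hRR t t' htt
    have e8 := hwl t' ht' i' hi'
    have e2 := hx (R t + (σ + 3)) (R t') (by omega) (by omega)
    have e3 := hy (R t + (σ + 3)) (R t') (by omega) (by omega)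
    have e4 := hx' (R t' + (σ + 3)) N (by omega) le_rfl
    have e5 := hy' (R t' + (σ + 3)) N (by omega) le_rfl
    have e9 := h4 V X n c τ σ N x y K (R t) (R t + (σ + 3)) i i' Q hS hL (by omega) (by omega)
      hi hQ hQi hQi' (by omega)
    rcases mem_win.1 hi' with ⟨a', b'⟩ | ⟨a', b'⟩ <;> omega
  -- the sets of positions
  obtain ⟨J, hJd⟩ : ∃ J : ℕ → Finset ℕ, J = fun t => (range n).filter (fun j => j ∉ M ∧
      ¬ (x 0 ≤ j ∧ j ≤ x N) ∧ ¬ (y N ≤ j ∧ j ≤ y 0) ∧ ∃ Q, Comp X n c Q ∧ At X c Q j ∧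
      ∃ i ∈ win x y (R t) (R t + (σ + 3)), At X c Q i) := ⟨_, rfl⟩
  have hJm : ∀ t j, j ∈ J t ↔ j < n ∧ j ∉ M ∧
      ¬ (x 0 ≤ j ∧ j ≤ x N) ∧ ¬ (y N ≤ j ∧ j ≤ y 0) ∧ ∃ Q, Comp X n c Q ∧ At X c Q j ∧
      ∃ i ∈ win x y (R t) (R t + (σ + 3)), At X c Q i := by
    intro t j
    rw [hJd]
    simp only [mem_filter, mem_range]
  have hJc : ∀ t, t ≤ 3 * μ → 3 * μ + 1 ≤ (J t).card := by
    intro t ht
    have e0 := hR t ht
    obtain ⟨-, w2, w3⟩ := h3 V X n c τ σ N x y K (R t) (R t + (σ + 3)) hS hL (by omega) (by omega)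
    obtain ⟨-, pc, -, -⟩ := h5 V X n c (win x y (R t) (R t + (σ + 3))) hS.ok hS.good
      (hcl t ht)
    have hsub : nbr X.G X.A (pcs X n c (win x y (R t) (R t + (σ + 3)))) ⊆
        ((J t).image c ∪ (((Icc (x 0) (x N) ∪ Icc (y N) (y 0)).filter
          (fun j => c j ∈ nbr X.G X.A (pcs X n c (win x y (R t) (R t + (σ + 3)))))).image c)) ∪
          M.image c := by
      intro w hw
      obtain ⟨j, hj, hjI, rfl, hor⟩ := (pc w).1 hw
      by_cases hjM : j ∈ M
      · exact mem_union_right _ (mem_image_of_mem c hjM)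
      refine mem_union_left _ ?_
      by_cases hjL : (x 0 ≤ j ∧ j ≤ x N) ∨ (y N ≤ j ∧ j ≤ y 0)
      · refine mem_union_right _ (mem_image_of_mem c ?_)
        rw [mem_filter, mem_union, mem_Icc, mem_Icc]
        exact ⟨hjL, hw⟩
      refine mem_union_left _ (mem_image_of_mem c ?_)
      rw [hJm]
      rw [not_or] at hjL
      refine ⟨hj, hjM, hjL.1, hjL.2, ?_⟩
      rcases hor with ⟨i, hi, hc⟩ | ⟨Q, hQ, hQj, i, hi, hQi⟩
      · exfalso
        have e1 := hwl t ht i hi
        have e2 := hy' 0 N (Nat.zero_le _) le_rfl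
        have e3 := hx' 0 N (Nat.zero_le _) le_rfl
        unfold Pool.Agent.W957.CH.cons at hc
        omega
      · exact ⟨Q, hQ, hQj, i, hi, hQi⟩
    have e1 := card_le_card hsub
    have e2 : (((J t).image c ∪ (((Icc (x 0) (x N) ∪ Icc (y N) (y 0)).filter
          (fun j => c j ∈ nbr X.G X.A (pcs X n c (win x y (R t) (R t + (σ + 3)))))).image c)) ∪
          M.image c).card ≤ (J t).card + (4 * τ + 4) + M.card := by
      refine (card_union_le _ _).trans (Nat.add_le_add ((card_union_le _ _).trans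
        (Nat.add_le_add card_image_le (card_image_le.trans ?_))) card_image_le)
      convert w2
    unfold bb at w3
    rw [← hμ] at w3
    omega
  -- distinct representatives
  obtain ⟨z, hz, hzJ⟩ := (Finset.all_card_le_biUnion_card_iff_exists_injective
    (fun t : Fin (3 * μ + 1) => J t.1)).1 (by
      intro s
      rcases s.eq_empty_or_nonempty with rfl | ⟨t, ht⟩
      · simp
      · refine (card_le_univ s).trans ?_
        rw [Fintype.card_fin]
        refine (hJc t.1 (by have := t.2; omega)).trans (card_le_card ?_)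
        exact subset_biUnion_of_mem (fun t : Fin (3 * μ + 1) => J t.1) ht)
  have hq : ∀ t : Fin (3 * μ + 1), ∃ q ∈ Sg, q.1 ≤ z t ∧ z t ≤ q.2 := by
    intro t
    have e1 := (hJm _ _).1 (hzJ t)
    exact hSg3 (z t) e1.1 e1.2.1
  choose q hqS hq1 hq2 using hq
  obtain ⟨zo, hzo⟩ : ∃ zo : Fin (3 * μ + 1) → ℕ,
      zo = fun t => if z t < x 0 then 0 else if z t < y N then 1 else 2 := ⟨_, rfl⟩
  have hzo3 : ∀ t, zo t < 3 := by
    intro t
    rw [hzo]
    show (if z t < x 0 then 0 else if z t < y N then 1 else 2) < 3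
    split_ifs <;> omega
  have hcard : (Sg ×ˢ range 3).card < (univ : Finset (Fin (3 * μ + 1))).card := by
    rw [card_product, card_range, card_univ, Fintype.card_fin]
    omega
  obtain ⟨t, -, t', -, htt, heq⟩ := exists_ne_map_eq_of_card_lt_of_maps_to hcard
    (f := fun t => (q t, zo t)) (by
      intro t _
      exact mem_product.2 ⟨hqS t, mem_range.2 (hzo3 t)⟩)
  have key : ∀ t t' : Fin (3 * μ + 1), t ≠ t' → z t < z t' → q t = q t' → zo t = zo t' →
      ∃ l1 l2 w1 w2 L1 L2, IniP X n c N x y p l1 l2 w1 w2 L1 L2 := by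
    intro t t' htt hlt hqq hzz
    obtain ⟨a1, a2, a3, a4, Q1, b1, b2, i1, b3, b4⟩ := (hJm _ _).1 (hzJ t)
    obtain ⟨a1', a2', a3', a4', Q2, b1', b2', i2, b3', b4'⟩ := (hJm _ _).1 (hzJ t')
    have ht : t.1 ≤ 3 * μ := by have := t.2; omega
    have ht' : t'.1 ≤ 3 * μ := by have := t'.2; omega
    have hval : t.1 ≠ t'.1 := fun h => htt (Fin.ext h)
    have hb : ∀ t : ℕ, t ≤ 3 * μ → ∀ i, i ∈ win x y (R t) (R t + (σ + 3)) →
        (x p < i ∧ i < x (N - p)) ∨ (y (N - p) < i ∧ i < y p) := by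
      intro t ht i hi
      have e0 := hR t ht
      have e1 := hx' p (R t) (hRp t) (by omega)
      have e2 := hx' (R t + (σ + 3)) (N - p) (by omega) (by omega)
      have e3 := hy' p (R t) (hRp t) (by omega)
      have e4 := hy' (R t + (σ + 3)) (N - p) (by omega) (by omega)
      rcases mem_win.1 hi with ⟨a, b⟩ | ⟨a, b⟩
      · left; omega
      · right; omega
    have hunm : ∀ i, z t ≤ i → i ≤ z t' → i ∉ M := by
      intro i hi1 hi2
      have e1 := hq1 t
      have e2 := hq2 t'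
      rw [← hqq] at e2
      exact (hSg2 _ (hqS t)).2.2 i (e1.trans hi1) (hi2.trans e2)
    refine ⟨i1, i2, z t, z t', Q1, Q2, ?_⟩
    constructor
    · exact hb t.1 ht i1 b3
    · exact hb t'.1 ht' i2 b3'
    · rintro rfl
      rcases Nat.lt_or_gt_of_ne hval with h | h
      · exact hdisj t.1 t'.1 h ht' i1 b3 b3'
      · exact hdisj t'.1 t.1 h ht i1 b3' b3
    · have e1 : (if z t < x 0 then 0 else if z t < y N then 1 else 2) =
          (if z t' < x 0 then 0 else if z t' < y N then 1 else 2) := by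
        have := hzz
        rw [hzo] at this
        exact this
      split_ifs at e1 <;> omega
    · exact hlt
    · exact a1'
    · intro i hi1 hi2 hch
      exact hunm i hi1 hi2 (hM.ce i (lt_of_le_of_lt hi2 a1') hch)
    · exact hM.gap (z t) (z t') hlt.le a1' hunm
    · rintro rfl
      rcases Nat.lt_or_gt_of_ne hval with h | h
      · exact hsep t.1 t'.1 h ht' Q1 i1 i2 b1 b3 b4 b3' b4'
      · exact hsep t'.1 t.1 h ht Q1 i2 i1 b1 b3' b4' b3 b4
    · exact b1
    · exact b1'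
    · exact b4
    · exact b4'
    · exact b2
    · exact b2'
  have hq' : q t = q t' := congrArg Prod.fst heq
  have hz' : zo t = zo t' := congrArg Prod.snd heq
  rcases Nat.lt_or_gt_of_ne (fun h => htt (hz h)) with h | h
  · exact key t t' htt h hq' hz'
  · exact key t' t htt.symm h hq'.symm hz'.symm

end Pool.Agent.W73.CH
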